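import Pool.Agent.Helper5.KPA.StP

/-!
# Project KP, module MVV: values of classes
-/

set_option autoImplicit false

namespace Pool.Agent.Helper27.KPA

open Pool.Agent.Helper5.KPA Pool.Agent.Helper52.KP MvPolynomial

lemma qr_mul {C : Cone} (hG : Good C) {a b : ℕ} {x y : QQ C.m} (hx : x ∈ QR C a)
    (hy : y ∈ QR C b) : x * y ∈ QR C (a + b) := by
  intro l
  rw [Polynomial.coeff_mul]
  exact (C.R (a + b)).sum_mem fun p _ => hG.mul _ _ _ _ (hx p.1) (hy p.2)

lemma qr_one {C : Cone} (hG : Good C) : (1 : QQ C.m) ∈ QR C 0 := by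
  intro l
  rw [Polynomial.coeff_one]
  split_ifs
  · exact hG.one
  · exact (C.R 0).zero_mem

lemma qr_pow {C : Cone} (hG : Good C) {a : ℕ} {x : QQ C.m} (hx : x ∈ QR C a) (s : ℕ) :
    x ^ s ∈ QR C (s * a) := by
  induction s with
  | zero => rw [pow_zero, zero_mul]; exact qr_one hG
  | succ s ih =>
    rw [pow_succ, Nat.succ_mul]
    exact qr_mul hG ih hx

lemma r_pow {C : Cone} (hG : Good C) {a : ℕ} {x : MvPolynomial (Fin C.m) ℂ} (hx : x ∈ C.R a)
    (s : ℕ) : x ^ s ∈ C.R (s * a) := by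
  induction s with
  | zero => rw [pow_zero, zero_mul]; exact hG.one
  | succ s ih =>
    rw [pow_succ, Nat.succ_mul]
    exact hG.mul _ _ _ _ ih hx

lemma qr_C {C : Cone} {a : ℕ} {x : MvPolynomial (Fin C.m) ℂ} (hx : x ∈ C.R a) :
    (Polynomial.C x : QQ C.m) ∈ QR C a := by
  intro l
  rw [Polynomial.coeff_C]
  split_ifs
  · exact hx
  · exact (C.R a).zero_mem

/-- there is a nonzero linear form -/
lemma exists_X {C : Cone} (hG : Good C) : ∃ X : MvPolynomial (Fin C.m) ℂ, X ∈ C.R 1 ∧ X ≠ 0 := by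
  obtain ⟨z, hz⟩ : ∃ z : Fin C.m → ℂ, ev C.Δ z ≠ 0 := by
    by_contra h
    push Not at h
    exact hG.Δ0 (MvPolynomial.funext fun z => by
      have := h z
      rw [map_zero]
      exact this)
  have h1 := hG.Xpos z hz
  unfold Cone.sz at h1
  obtain ⟨i, -, hi⟩ := Finset.exists_ne_zero_of_sum_ne_zero h1.ne'
  refine ⟨C.X i, hG.XR i, fun h => hi ?_⟩
  rw [h]
  simp [ev]

lemma vd_one {C : Cone} {r : ℕ} {F : ℕ → ℕ → Submodule ℂ (MvPolynomial (Fin C.m) ℂ)} {h : ℕ}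
    {v : Fin h → QQ C.m → ℤ} {b : Fin h → ℕ} (hV : VD C r F h v b) (i : Fin h) :
    v i 1 = 0 := by
  have := hV.cst i 1 one_ne_zero
  simpa using this

lemma vd_pow {C : Cone} (hG : Good C) {r : ℕ}
    {F : ℕ → ℕ → Submodule ℂ (MvPolynomial (Fin C.m) ℂ)} {h : ℕ}
    {v : Fin h → QQ C.m → ℤ} {b : Fin h → ℕ} (hV : VD C r F h v b) (i : Fin h) (k : ℕ)
    (x : QQ C.m) (hx : x ∈ QR C (C.n * r * k)) (hx0 : x ≠ 0) (s : ℕ) :
    v i (x ^ s) = s * v i x := by
  induction s with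
  | zero => simp [vd_one hV i]
  | succ s ih =>
    have h1 : x ^ s ∈ QR C (C.n * r * (s * k)) := by
      have := qr_pow hG hx s
      rwa [show s * (C.n * r * k) = C.n * r * (s * k) by ring] at this
    rw [pow_succ, hV.mul i _ _ _ _ h1 hx (pow_ne_zero s hx0) hx0, ih]
    push_cast
    ring

theorem hMVV : StMVV := by
  intro C hG r F hN h v b hV i
  have hr : 1 ≤ r := hN.hr
  have hpow : ∀ a (x : QQ C.m), x ∈ QR C (C.n * a) → x ^ r ∈ QR C (C.n * r * a) := by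
    intro a x hx
    have := qr_pow hG hx r
    rwa [show r * (C.n * a) = C.n * r * a by ring] at this
  have ha : ∀ a a' x y, x ∈ QR C (C.n * a) → y ∈ QR C (C.n * a') → x ≠ 0 → y ≠ 0 →
      v i ((x * y) ^ r) = v i (x ^ r) + v i (y ^ r) := by
    intro a a' x y hx hy hx0 hy0
    rw [mul_pow]
    exact hV.mul i a a' _ _ (hpow a x hx) (hpow a' y hy) (pow_ne_zero r hx0) (pow_ne_zero r hy0)
  have hc : ∀ k x, x ∈ QR C (C.n * r * k) → x ≠ 0 → v i (x ^ r) = r * v i x :=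
    fun k x hx hx0 => vd_pow hG hV i k x hx hx0 r
  -- multiplication by a power of a linear form
  obtain ⟨X, hX, hX0⟩ := exists_X hG
  have ht : ∀ a : ℕ, ∃ t : MvPolynomial (Fin C.m) ℂ, t ≠ 0 ∧ ∀ x : QQ C.m, x ∈ QR C (C.n * a) →
      Polynomial.C t * x ∈ QR C (C.n * r * a) ∧
      (x ≠ 0 → v i (x ^ r) = r * v i (Polynomial.C t * x) - v i ((Polynomial.C t) ^ r)) := by
    intro a
    have hle : a ≤ r * a := Nat.le_mul_of_pos_left a hr
    have hXt : X ^ (C.n * (r * a - a)) ∈ C.R (C.n * (r * a - a)) := by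
      have := r_pow hG hX (C.n * (r * a - a))
      rwa [mul_one] at this
    have hCt : (Polynomial.C (X ^ (C.n * (r * a - a))) : QQ C.m) ∈ QR C (C.n * (r * a - a)) :=
      qr_C hXt
    have ht0 : X ^ (C.n * (r * a - a)) ≠ 0 := pow_ne_zero _ hX0
    refine ⟨X ^ (C.n * (r * a - a)), ht0, fun x hx => ?_⟩
    have h1 : Polynomial.C (X ^ (C.n * (r * a - a))) * x ∈ QR C (C.n * r * a) := by
      have := qr_mul hG hCt hx
      rwa [show C.n * (r * a - a) + C.n * a = C.n * r * a by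
        rw [← mul_add, Nat.sub_add_cancel hle, mul_assoc]] at this
    refine ⟨h1, fun hx0 => ?_⟩
    have hCt0 : (Polynomial.C (X ^ (C.n * (r * a - a))) : QQ C.m) ≠ 0 :=
      Polynomial.C_ne_zero.2 ht0
    have h2 := hc a _ h1 (mul_ne_zero hCt0 hx0)
    rw [ha _ _ _ _ hCt hx hCt0 hx0] at h2
    linarith
  refine ⟨ha, ?_, hc, ?_, ?_⟩
  · intro a x y hx hy hx0 hy0 hxy
    obtain ⟨t, ht0, ht1⟩ := ht a
    obtain ⟨mx, ex⟩ := ht1 x hx
    obtain ⟨my, ey⟩ := ht1 y hy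
    obtain ⟨mxy, exy⟩ := ht1 (x + y) ((QR C (C.n * a)).add_mem hx hy)
    have hCt0 : (Polynomial.C t : QQ C.m) ≠ 0 := Polynomial.C_ne_zero.2 ht0
    have h3 := hV.add i a _ _ mx my (mul_ne_zero hCt0 hx0) (mul_ne_zero hCt0 hy0)
      (by rw [← mul_add]; exact mul_ne_zero hCt0 hxy)
    rw [← mul_add] at h3
    rw [ex hx0, ey hy0, exy hxy]
    have hr0 : (0 : ℤ) ≤ r := Int.natCast_nonneg r
    rcases min_le_iff.1 h3 with h4 | h4
    · exact (min_le_left _ _).trans (by nlinarith)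
    · exact (min_le_right _ _).trans (by nlinarith)
  · intro a x l hx hl
    have hx0 : x ≠ 0 := fun h => hl (by rw [h, Polynomial.coeff_zero])
    obtain ⟨t, ht0, ht1⟩ := ht a
    obtain ⟨mx, ex⟩ := ht1 x hx
    have hl0 : (Polynomial.C (x.coeff l) : QQ C.m) ≠ 0 := Polynomial.C_ne_zero.2 hl
    obtain ⟨-, el⟩ := ht1 (Polynomial.C (x.coeff l)) (qr_C (hx l))
    rw [ex hx0, el hl0]
    have h5 := hV.hom i a _ l mx (by
      rw [Polynomial.coeff_C_mul]; exact mul_ne_zero ht0 hl)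
    rw [Polynomial.coeff_C_mul, Polynomial.C_mul] at h5
    have hr0 : (0 : ℤ) ≤ r := Int.natCast_nonneg r
    nlinarith
  · intro a x c hx hx0 hc0
    have h6 : (c • x) ^ r = Polynomial.C (MvPolynomial.C (c ^ r)) * x ^ r := by
      rw [smul_pow]
      ext1 l
      rw [Polynomial.coeff_smul, Polynomial.coeff_C_mul, MvPolynomial.smul_eq_C_mul]
    have h7 : (Polynomial.C (MvPolynomial.C (c ^ r)) : QQ C.m) ∈ QR C (C.n * r * 0) := by
      rw [mul_zero]
      refine qr_C ?_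
      rw [show (MvPolynomial.C (c ^ r) : MvPolynomial (Fin C.m) ℂ) = (c ^ r) • 1 by
        rw [MvPolynomial.smul_eq_C_mul, mul_one]]
      exact (C.R 0).smul_mem _ hG.one
    have h8 : (Polynomial.C (MvPolynomial.C (c ^ r)) : QQ C.m) ≠ 0 := by
      rw [Polynomial.C_ne_zero, Ne, MvPolynomial.C_eq_zero]
      exact pow_ne_zero r hc0
    rw [h6, hV.mul i 0 a _ _ h7 (hpow a x hx) h8 (pow_ne_zero r hx0),
      hV.cst i _ (pow_ne_zero r hc0), zero_add]

end Pool.Agent.Helper27.KPA
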